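import Pool.Agent.Helper8.SE.Core

/-! Property `(*^1)` for all equivalent norms, written with a seminorm. -/

open scoped ContDiff NNReal
open Set Filter Topology

namespace Pool.Agent.Helper8.SE

/-- `V` with an equivalent norm. -/
def VQ {V : Type*} [NormedAddCommGroup V] [NormedSpace ℝ V] (_q : Seminorm ℝ V) : Type _ := V

section

variable {V : Type*} [NormedAddCommGroup V] [NormedSpace ℝ V] (q : Seminorm ℝ V)

instance : AddCommGroup (VQ q) := inferInstanceAs (AddCommGroup V)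

instance : Module ℝ (VQ q) := inferInstanceAs (Module ℝ V)

instance : Norm (VQ q) := ⟨fun v => q (v : V)⟩

theorem VQ_core (M : ℝ) (h2 : ∀ w : V, ‖w‖ ≤ M * q w) : NormedSpace.Core ℝ (VQ q) where
  norm_nonneg v := apply_nonneg q (v : V)
  norm_smul c v := map_smul_eq_mul q c (v : V)
  norm_triangle v w := map_add_le_add q (v : V) (w : V)
  norm_eq_zero_iff v := by
    constructor
    · intro h
      have h' : q (v : V) = 0 := h
      have := h2 v
      rw [h', mul_zero] at this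
      exact norm_le_zero_iff.1 this
    · intro h
      have : (v : V) = 0 := h
      change q (v : V) = 0
      rw [this]
      exact map_zero q

end

/-- Property `(*^1)` of `V` for the equivalent norm `q`, from the statement for normed spaces. -/
theorem hR_of.{u} {V : Type u} [NormedAddCommGroup V] [NormedSpace ℝ V]
    [TopologicalSpace.SeparableSpace (StrongDual ℝ V)] (C₀ : ℝ≥0)
    (H : ∀ (Z : Type u) [NormedAddCommGroup Z] [NormedSpace ℝ Z]
      [TopologicalSpace.SeparableSpace (StrongDual ℝ Z)], ∀ (f : Z → ℝ) (L : ℝ≥0),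
      LipschitzWith L f → ∀ ε : ℝ, 0 < ε →
      ∃ K : Z → ℝ, ContDiff ℝ 1 K ∧ LipschitzWith (C₀ * L) K ∧ ∀ x, |f x - K x| < ε)
    (q : Seminorm ℝ V) (M : ℝ) (hM : 0 < M) (h1 : ∀ w, q w ≤ M * ‖w‖)
    (h2 : ∀ w, ‖w‖ ≤ M * q w) (g : V → ℝ) (Λ : ℝ) (hΛ : 0 ≤ Λ)
    (hg : ∀ x y, |g x - g y| ≤ Λ * q (x - y)) (δ : ℝ) (hδ : 0 < δ) :
    ∃ K : V → ℝ, ContDiff ℝ 1 K ∧ (∀ x y, |K x - K y| ≤ C₀ * Λ * q (x - y)) ∧
      ∀ x, |g x - K x| < δ := by
  let i1 : NormedAddCommGroup (VQ q) := NormedAddCommGroup.ofCore (VQ_core q M h2)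
  let i2 : NormedSpace ℝ (VQ q) := NormedSpace.ofCore (VQ_core q M h2)
  have hn : ∀ v : VQ q, ‖v‖ = q (v : V) := fun v => rfl
  let e : VQ q ≃ₗ[ℝ] V := LinearEquiv.refl ℝ V
  have he : Continuous e := by
    refine AddMonoidHomClass.continuous_of_bound e M fun v => ?_
    exact h2 v
  have he' : Continuous e.symm := by
    refine AddMonoidHomClass.continuous_of_bound e.symm M fun v => ?_
    exact h1 v
  let T : VQ q ≃L[ℝ] V := { e with continuous_toFun := he, continuous_invFun := he' }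
  have hsep : TopologicalSpace.SeparableSpace (StrongDual ℝ (VQ q)) := dual_sep T
  let Λ' : ℝ≥0 := Real.toNNReal Λ
  have hΛ' : (Λ' : ℝ) = Λ := Real.coe_toNNReal Λ hΛ
  have hgl : LipschitzWith Λ' (fun v : VQ q => g (T v)) :=
    LipschitzWith.of_dist_le_mul fun x y => by
      rw [Real.dist_eq, dist_eq_norm, hn, hΛ']
      exact hg (T x) (T y)
  obtain ⟨K, hK1, hK2, hK3⟩ := H (VQ q) (fun v => g (T v)) Λ' hgl δ hδ
  refine ⟨fun v => K (T.symm v), hK1.comp T.symm.contDiff, fun x y => ?_, fun x => ?_⟩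
  · have h := hK2.dist_le_mul (T.symm x) (T.symm y)
    rw [Real.dist_eq, dist_eq_norm, hn, NNReal.coe_mul, hΛ'] at h
    exact h
  · have h := hK3 (T.symm x)
    simpa using h

end Pool.Agent.Helper8.SE
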