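import Pool.Agent.Helper8.SE.Glue

/-! Assembly from the rows. -/

open scoped ContDiff NNReal
open Set Filter Topology

namespace Pool.Agent.Helper8.SE

/-- Separable spaces whose norm can be approximated. -/
theorem core.{u} (hE : ST_ENV.{u}) (hG : ST_GLUE.{u}) (X : Type u) [NormedAddCommGroup X]
    [NormedSpace ℝ X] [TopologicalSpace.SeparableSpace X] (k : WithTop ℕ∞) (hk : k ≤ ∞) (c : ℝ)
    (hc : 0 < c) (hX : NormApp k X c) (C₀ : ℝ≥0) (hC : 2 * c < C₀) (f : X → ℝ) (L : ℝ≥0)
    (hf : LipschitzWith L f) (ε : ℝ) (hε : 0 < ε) :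
    ∃ K : X → ℝ, ContDiff ℝ k K ∧ LipschitzWith (C₀ * L) K ∧ ∀ x, |f x - K x| < ε := by
  rcases eq_or_ne L 0 with h0 | h0
  · refine ⟨f, ?_, ?_, fun x => by simpa using hε⟩
    · have : f = fun _ => f 0 := by
        funext x
        have := hf.dist_le_mul x 0
        rw [h0] at this
        simp only [NNReal.coe_zero, zero_mul] at this
        exact dist_le_zero.1 this
      rw [this]
      exact contDiff_const
    · rw [h0, mul_zero]
      rwa [h0] at hf
  · have hL : (0 : ℝ) < L := by
      have : 0 < L := pos_iff_ne_zero.2 h0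
      exact_mod_cast this
    have hf1 : ∀ x y, |f x / L - f y / L| ≤ ‖x - y‖ := by
      intro x y
      rw [← sub_div, abs_div, abs_of_pos hL, div_le_iff₀ hL]
      have := hf.dist_le_mul x y
      rw [Real.dist_eq, dist_eq_norm] at this
      linarith
    obtain ⟨K, hK1, hK2, hK3⟩ := hG X k c hk hc (fun x => f x / L)
      (TopologicalSpace.denseSeq X) (TopologicalSpace.denseRange_denseSeq X)
      (fun e he => hE X k c hk hX (fun x => f x / L) hf1 _ e he) C₀ hC (ε / L) (by positivity)
    refine ⟨fun x => L * K x, contDiff_const.mul hK1, ?_, fun x => ?_⟩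
    · refine LipschitzWith.of_dist_le_mul fun x y => ?_
      rw [Real.dist_eq, dist_eq_norm, ← mul_sub, abs_mul, abs_of_pos hL]
      push_cast
      nlinarith [hK2 x y]
    · have h := hK3 x
      have h2 : f x - L * K x = L * (f x / L - K x) := by field_simp
      rw [h2, abs_mul, abs_of_pos hL]
      rw [lt_div_iff₀ hL] at h
      linarith

/-- The dual of an isomorphic space is separable. -/
theorem dual_sep {X : Type*} {Z : Type*} [NormedAddCommGroup X] [NormedSpace ℝ X]
    [NormedAddCommGroup Z] [NormedSpace ℝ Z] (T : Z ≃L[ℝ] X)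
    [TopologicalSpace.SeparableSpace (StrongDual ℝ X)] :
    TopologicalSpace.SeparableSpace (StrongDual ℝ Z) := by
  let R : StrongDual ℝ X → StrongDual ℝ Z := fun g => g.comp (T : Z →L[ℝ] X)
  have hR : Continuous R := (ContinuousLinearMap.precomp ℝ (T : Z →L[ℝ] X)).continuous
  have hs : Function.Surjective R := by
    intro h
    refine ⟨h.comp (T.symm : X →L[ℝ] Z), ?_⟩
    ext z
    simp [R]
  exact hs.denseRange.separableSpace hR

end Pool.Agent.Helper8.SE
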