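import Pool.Agent.Helper8.SE.HR
import Pool.Agent.Helper13.SE.STEPF
import Pool.Agent.Helper40.SE.SMIN
import Pool.Agent.Helper31.SE.NU
import Pool.Agent.Helper76.SE.LOGW
import Pool.Agent.Helper1.SE.HB
import Pool.Agent.Helper49.SE.PHC
import Pool.Agent.Helper63.SE.ULT
import Pool.Agent.Helper46.SE.PHM
import Pool.Agent.Helper73.SE.ENV
import Pool.Agent.Helper55.SE.ABEL
import Pool.Agent.Helper61.SE.LIP
import Pool.Agent.Helper28.SE.SEP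
import Pool.Agent.Helper84.SE.KK
import Pool.Agent.Helper47.SE.PHI

/-! The theorems of project SE. -/

open scoped ContDiff NNReal
open Set Filter Topology

namespace Pool.Agent.Helper8.SE

theorem allEnv.{u} : ST_ENV.{u} := stENV Pool.Agent.Helper40.SE.stSMIN

theorem allGlue.{u} : ST_GLUE.{u} :=
  stGLUE (Pool.Agent.Helper76.SE.stLOGW stSTEPF)
    (Pool.Agent.Helper61.SE.stLIP Pool.Agent.Helper55.SE.stABEL)

theorem allNu.{u} : ST_NU.{u} :=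
  Pool.Agent.Helper31.SE.stNU (Pool.Agent.Helper47.SE.stPHI (stPHM Pool.Agent.Helper63.SE.stULT)
    Pool.Agent.Helper49.SE.stPHC
    (Pool.Agent.Helper84.SE.stKK Pool.Agent.Helper1.SE.stHB Pool.Agent.Helper63.SE.stULT))

/-- General form. -/
theorem normApp_star.{u} (X : Type u) [NormedAddCommGroup X]
    [NormedSpace ℝ X] [TopologicalSpace.SeparableSpace X] (k : WithTop ℕ∞) (hk : k ≤ ∞) (c : ℝ)
    (hc : 0 < c) (hX : NormApp k X c) (C₀ : ℝ≥0) (hC : 2 * c < C₀) (f : X → ℝ) (L : ℝ≥0)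
    (hf : LipschitzWith L f) (ε : ℝ) (hε : 0 < ε) :
    ∃ K : X → ℝ, ContDiff ℝ k K ∧ LipschitzWith (C₀ * L) K ∧ ∀ x, |f x - K x| < ε :=
  core allEnv allGlue X k hk c hc hX C₀ hC f L hf ε hε

/-- Separable dual. -/
theorem sepDual_star.{u} (X : Type u) [NormedAddCommGroup X]
    [NormedSpace ℝ X] [TopologicalSpace.SeparableSpace (StrongDual ℝ X)]
    (C₀ : ℝ≥0) (hC : 2 < C₀) (f : X → ℝ) (L : ℝ≥0)
    (hf : LipschitzWith L f) (ε : ℝ) (hε : 0 < ε) :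
    ∃ K : X → ℝ, ContDiff ℝ 1 K ∧ LipschitzWith (C₀ * L) K ∧ ∀ x, |f x - K x| < ε := by
  have hs : TopologicalSpace.SeparableSpace X := stSEP X
  refine normApp_star X 1 (by exact_mod_cast le_top) 1 one_pos (allNu X) C₀ ?_ f L hf ε hε
  rw [mul_one]
  exact_mod_cast hC

/-- Separable dual, equivalent norms as seminorms. -/
theorem hR_of_dual.{u} {V : Type u} [NormedAddCommGroup V] [NormedSpace ℝ V]
    [TopologicalSpace.SeparableSpace (StrongDual ℝ V)] (C₀ : ℝ≥0) (hC : 2 < C₀)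
    (q : Seminorm ℝ V) (M : ℝ) (hM : 0 < M) (h1 : ∀ w, q w ≤ M * ‖w‖)
    (h2 : ∀ w, ‖w‖ ≤ M * q w) (g : V → ℝ) (Λ : ℝ) (hΛ : 0 ≤ Λ)
    (hg : ∀ x y, |g x - g y| ≤ Λ * q (x - y)) (δ : ℝ) (hδ : 0 < δ) :
    ∃ K : V → ℝ, ContDiff ℝ 1 K ∧ (∀ x y, |K x - K y| ≤ C₀ * Λ * q (x - y)) ∧
      ∀ x, |g x - K x| < δ :=
  hR_of C₀ (fun Z _ _ _ f L hf ε hε => sepDual_star Z C₀ hC f L hf ε hε) q M hM h1 h2 g Λ hΛ hg δ
    hδ

end Pool.Agent.Helper8.SE
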