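import Pool.Agent.Helper8.SE.Sheet

/-! Row GLUE. -/

open scoped ContDiff
open Set Filter Topology

namespace Pool.Agent.Helper8.SE

/-- The weights. -/
noncomputable def wt (W : ℝ → ℝ) (D : ℕ → ℝ) (n : ℕ) : ℝ :=
  (if n = 0 then 1 else W (D (n - 1))) - W (D n)

theorem Kf_eq (W : ℝ → ℝ) (D F : ℕ → ℝ) (N : ℕ) :
    Kf W D F N = ∑ n ∈ Finset.range (N + 1), wt W D n * F n := rfl

theorem Kf_succ (W : ℝ → ℝ) (D F : ℕ → ℝ) (N : ℕ) :
    Kf W D F (N + 1) = Kf W D F N + (W (D N) - W (D (N + 1))) * F (N + 1) := by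
  rw [Kf_eq, Kf_eq, Finset.sum_range_succ]
  simp [wt]

theorem W_anti {κ s₀ Λ : ℝ} {W : ℝ → ℝ} (hW : LogW κ s₀ Λ W) {D : ℕ → ℝ}
    (hD : ∀ n, D (n + 1) ≤ D n) {M M' : ℕ} (h : M ≤ M') (h0 : W (D M) = 0) : W (D M') = 0 := by
  have hanti : Antitone D := antitone_nat_of_succ_le hD
  exact le_antisymm ((hW.mono (hanti h)).trans h0.le) (hW.nonneg _)

theorem Kf_stable {κ s₀ Λ : ℝ} {W : ℝ → ℝ} (hW : LogW κ s₀ Λ W) {D : ℕ → ℝ} (F : ℕ → ℝ)
    (hD : ∀ n, D (n + 1) ≤ D n) {M M' : ℕ} (h : M ≤ M') (h0 : W (D M) = 0) :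
    Kf W D F M' = Kf W D F M := by
  induction M', h using Nat.le_induction with
  | base => rfl
  | succ m hm ih =>
    rw [Kf_succ, ih, W_anti hW hD hm h0, W_anti hW hD (Nat.le_succ_of_le hm) h0]
    simp

theorem wt_sum (W : ℝ → ℝ) (D : ℕ → ℝ) (N : ℕ) :
    ∑ n ∈ Finset.range (N + 1), wt W D n = 1 - W (D N) := by
  induction N with
  | zero => simp [wt]
  | succ N ih =>
    rw [Finset.sum_range_succ, ih]
    simp [wt]

theorem wt_nonneg {κ s₀ Λ : ℝ} {W : ℝ → ℝ} (hW : LogW κ s₀ Λ W) {D : ℕ → ℝ}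
    (hD : ∀ n, D (n + 1) ≤ D n) (n : ℕ) : 0 ≤ wt W D n := by
  unfold wt
  cases n with
  | zero =>
    simp only [if_true]
    linarith [hW.le_one (D 0)]
  | succ n =>
    have := hW.mono (hD n)
    simp only [Nat.succ_ne_zero, if_false, Nat.add_sub_cancel]
    linarith

theorem wt_lt {κ s₀ Λ : ℝ} {W : ℝ → ℝ} (hW : LogW κ s₀ Λ W) {D : ℕ → ℝ}
    (hD : ∀ n, D (n + 1) ≤ D n) (n : ℕ) (hn : wt W D n ≠ 0) : D n < s₀ * Real.exp Λ := by
  by_contra hcon
  push Not at hcon
  apply hn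
  refine le_antisymm ?_ (wt_nonneg hW hD n)
  have h1 := hW.one _ hcon
  unfold wt
  rw [h1]
  split_ifs
  · simp
  · linarith [hW.le_one (D (n - 1))]

/-- Local-to-global Lipschitz estimate. -/
theorem lip_global {X : Type*} [NormedAddCommGroup X] [NormedSpace ℝ X] {K : X → ℝ} {C r : ℝ}
    (hr : 0 < r) (h : ∀ x y, ‖x - y‖ ≤ r → |K x - K y| ≤ C * ‖x - y‖) (x y : X) :
    |K x - K y| ≤ C * ‖x - y‖ := by
  obtain ⟨n, hn⟩ := exists_nat_gt (‖x - y‖ / r)
  have hn0 : (0 : ℝ) < n := lt_of_le_of_lt (by positivity) hn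
  let p : ℕ → X := fun i => y + ((i : ℝ) / n) • (x - y)
  have hp : ∀ i, p (i + 1) - p i = ((1 : ℝ) / n) • (x - y) := by
    intro i
    simp only [p]
    push_cast
    rw [add_sub_add_left_eq_sub, ← sub_smul]
    congr 1
    ring
  have hpn : ∀ i, ‖p (i + 1) - p i‖ = ‖x - y‖ / n := by
    intro i
    rw [hp, norm_smul, Real.norm_of_nonneg (by positivity)]
    ring
  have hstep : ∀ i, |K (p (i + 1)) - K (p i)| ≤ C * (‖x - y‖ / n) := by
    intro i
    have := h (p (i + 1)) (p i) (by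
      rw [hpn, div_le_iff₀ hn0]
      rw [div_lt_iff₀ hr] at hn
      linarith)
    rwa [hpn] at this
  have hsum : K (p n) - K (p 0) = ∑ i ∈ Finset.range n, (K (p (i + 1)) - K (p i)) :=
    (Finset.sum_range_sub (fun i => K (p i)) n).symm
  have hp0 : p 0 = y := by simp [p]
  have hpN : p n = x := by
    simp only [p]
    rw [div_self hn0.ne', one_smul, add_sub_cancel]
  rw [hp0, hpN] at hsum
  rw [hsum]
  calc |∑ i ∈ Finset.range n, (K (p (i + 1)) - K (p i))|
      ≤ ∑ i ∈ Finset.range n, |K (p (i + 1)) - K (p i)| := Finset.abs_sum_le_sum_abs _ _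
    _ ≤ ∑ _i ∈ Finset.range n, C * (‖x - y‖ / n) := Finset.sum_le_sum fun i _ => hstep i
    _ = C * ‖x - y‖ := by
      rw [Finset.sum_const, Finset.card_range, nsmul_eq_mul]
      field_simp

theorem choose_par {c C : ℝ} (hc : 0 < c) (hC : 2 * c < C) : ∃ κ Λ : ℝ, 0 < κ ∧ κ ≤ 1 / 10 ∧
    0 < Λ ∧ c * (1 + (1 + κ) * (1 + 2 * κ) / (1 - 2 * κ) * (1 + 2 / Λ)) ≤ C := by
  have hcont : ContinuousAt (fun κ : ℝ =>
      c * (1 + (1 + κ) * (1 + 2 * κ) / (1 - 2 * κ) * (1 + 2 * κ))) 0 := by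
    refine ContinuousAt.mul continuousAt_const (ContinuousAt.add continuousAt_const ?_)
    refine ContinuousAt.mul (ContinuousAt.div (by fun_prop) (by fun_prop) (by norm_num))
      (by fun_prop)
  have hlt : ∀ᶠ κ in 𝓝 (0 : ℝ),
      c * (1 + (1 + κ) * (1 + 2 * κ) / (1 - 2 * κ) * (1 + 2 * κ)) < C := by
    refine hcont.eventually_lt continuousAt_const ?_
    norm_num
    linarith
  have h2 : ∀ᶠ κ in 𝓝[>] (0 : ℝ),
      c * (1 + (1 + κ) * (1 + 2 * κ) / (1 - 2 * κ) * (1 + 2 * κ)) < C ∧ κ < 1 / 10 ∧ 0 < κ := by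
    refine (hlt.filter_mono nhdsWithin_le_nhds).and ((((gt_mem_nhds (by norm_num :
      (0 : ℝ) < 1 / 10))).filter_mono nhdsWithin_le_nhds).and self_mem_nhdsWithin)
  obtain ⟨κ, h1, h3, h4⟩ := h2.exists
  refine ⟨κ, 1 / κ, h4, h3.le, by positivity, ?_⟩
  have : 2 / (1 / κ) = 2 * κ := by field_simp
  rw [this]
  exact h1.le

theorem stGLUE.{u} (hLW : ST_LOGW) (hL : ST_LIP) : ST_GLUE.{u} := by
  intro X _ _ k c hk hc f z hz hE C hC ε hε
  obtain ⟨κ, Λ, hκ, hκ1, hΛ, hpar⟩ := choose_par hc hC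
  have hexp : 0 < Real.exp Λ := Real.exp_pos Λ
  obtain ⟨s₀, hs₀, hs⟩ : ∃ s₀ : ℝ, 0 < s₀ ∧ s₀ * (Real.exp Λ + 1) = ε / 2 :=
    ⟨ε / 2 / (Real.exp Λ + 1), by positivity, by field_simp⟩
  have he : 0 < κ * s₀ := by positivity
  obtain ⟨E⟩ := hE (κ * s₀) he
  obtain ⟨W, hW⟩ := hLW κ s₀ Λ hκ hs₀ hΛ
  have hD : ∀ x n, E.D (n + 1) x ≤ E.D n x := fun x n => E.Dm n x
  have hex : ∀ x : X, ∃ N, E.D N x < s₀ := by
    intro x
    have hpos : 0 < (1 - κ) * s₀ := mul_pos (by linarith) hs₀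
    obtain ⟨j, hj⟩ := hz.exists_dist_lt x hpos
    refine ⟨j, ?_⟩
    have h1 := E.Dz j x j le_rfl
    rw [dist_eq_norm] at hj
    nlinarith
  choose N hN using hex
  have hN0 : ∀ x, W (E.D (N x) x) = 0 := fun x => hW.zero _ (hN x).le
  let F : X → ℕ → ℝ := fun x n => (E.U n x + E.V n x) / 2
  let K : X → ℝ := fun x => Kf W (fun n => E.D n x) (F x) (N x)
  have hK : ∀ x M, W (E.D M x) = 0 → K x = Kf W (fun n => E.D n x) (F x) M := by
    intro x M hM
    rcases le_total (N x) M with h | h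
    · exact (Kf_stable hW (F x) (hD x) h (hN0 x)).symm
    · exact Kf_stable hW (F x) (hD x) h hM
  refine ⟨K, ?_, ?_, ?_⟩
  · -- smoothness
    rw [contDiff_iff_contDiffAt]
    intro x
    have hopen : ∀ᶠ y in 𝓝 x, E.D (N x) y < s₀ := by
      have hc := (E.Dc (N x)).continuous
      exact (isOpen_lt hc continuous_const).mem_nhds (hN x)
    have heq : K =ᶠ[𝓝 x] fun y => Kf W (fun n => E.D n y) (F y) (N x) := by
      filter_upwards [hopen] with y hy
      exact hK y (N x) (hW.zero _ hy.le)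
    have hWs : ContDiff ℝ k W := hW.smooth.of_le hk
    have hWD : ∀ n, ContDiff ℝ k fun y => W (E.D n y) := fun n => hWs.comp (E.Dc n)
    have hFs : ∀ n, ContDiff ℝ k fun y => F y n := fun n =>
      ((E.Uc n).add (E.Vc n)).div_const 2
    have hsm : ContDiff ℝ k fun y => Kf W (fun n => E.D n y) (F y) (N x) := by
      unfold Kf
      refine ContDiff.sum fun n _ => ContDiff.mul (ContDiff.sub ?_ (hWD n)) (hFs n)
      by_cases hn : n = 0
      · simp only [hn, if_true]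
        exact contDiff_const
      · simp only [hn, if_false]
        exact hWD (n - 1)
    exact hsm.contDiffAt.congr_of_eventuallyEq heq
  · -- Lipschitz estimate
    refine lip_global (r := κ * s₀ / c) (by positivity) fun x y hxy => ?_
    have hτ : c * ‖x - y‖ ≤ κ * s₀ := by
      rw [le_div_iff₀ hc] at hxy
      linarith
    have hM1 : W (E.D (max (N x) (N y)) x) = 0 :=
      W_anti hW (D := fun n => E.D n x) (hD x) (le_max_left _ _) (hN0 x)
    have hM2 : W (E.D (max (N x) (N y)) y) = 0 :=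
      W_anti hW (D := fun n => E.D n y) (hD y) (le_max_right _ _) (hN0 y)
    have hsw : ‖y - x‖ = ‖x - y‖ := norm_sub_rev y x
    have key := hL κ s₀ Λ (κ * s₀) (c * ‖x - y‖) W (fun n => E.D n y) (fun n => E.D n x)
      (fun n => E.U n y) (fun n => E.U n x) (fun n => E.V n y) (fun n => E.V n x)
      (max (N x) (N y)) hκ hκ1 hs₀ hΛ he.le le_rfl (by positivity) hτ hW
      (fun n => by have := E.Dl n y x; rwa [hsw] at this)
      (fun n => by have := E.Ul n y x; rwa [hsw] at this)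
      (fun n => by have := E.Vl n y x; rwa [hsw] at this)
      (hD y) (hD x) (fun n => E.Um n y) (fun n => E.Vm n y) (fun n => E.UV n y)
      (fun n => by
        have h1 := E.fU n y
        have h2 := E.Vf n y
        linarith) hM2 hM1
    rw [hK x _ hM1, hK y _ hM2]
    refine key.trans ?_
    calc c * ‖x - y‖ * (1 + (1 + κ) * (1 + 2 * κ) / (1 - 2 * κ) * (1 + 2 / Λ))
        = c * (1 + (1 + κ) * (1 + 2 * κ) / (1 - 2 * κ) * (1 + 2 / Λ)) * ‖x - y‖ := by ring
      _ ≤ C * ‖x - y‖ := mul_le_mul_of_nonneg_right hpar (norm_nonneg _)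
  · -- approximation
    intro x
    have hs1 : ∑ n ∈ Finset.range (N x + 1), wt W (fun n => E.D n x) n = 1 := by
      rw [wt_sum]
      rw [hN0 x]
      ring
    have h1 : f x - K x =
        ∑ n ∈ Finset.range (N x + 1), wt W (fun n => E.D n x) n * (f x - F x n) := by
      have : K x = ∑ n ∈ Finset.range (N x + 1), wt W (fun n => E.D n x) n * F x n := rfl
      rw [this]
      simp only [mul_sub]
      rw [Finset.sum_sub_distrib, ← Finset.sum_mul, hs1, one_mul]
    have h2 : ∀ n, |f x - F x n| ≤ E.D n x + 2 * (κ * s₀) := by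
      intro n
      have a1 := E.fU n x
      have a2 := E.Vf n x
      have a3 := E.UV n x
      rw [abs_le]
      constructor <;> simp only [F] <;> linarith
    have h3 : |f x - K x| ≤ s₀ * Real.exp Λ + 2 * (κ * s₀) := by
      rw [h1]
      calc |∑ n ∈ Finset.range (N x + 1), wt W (fun n => E.D n x) n * (f x - F x n)|
          ≤ ∑ n ∈ Finset.range (N x + 1), |wt W (fun n => E.D n x) n * (f x - F x n)| :=
            Finset.abs_sum_le_sum_abs _ _
        _ ≤ ∑ n ∈ Finset.range (N x + 1),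
            wt W (fun n => E.D n x) n * (s₀ * Real.exp Λ + 2 * (κ * s₀)) := by
            refine Finset.sum_le_sum fun n _ => ?_
            have hw := wt_nonneg hW (D := fun n => E.D n x) (hD x) n
            rw [abs_mul, abs_of_nonneg hw]
            rcases eq_or_ne (wt W (fun n => E.D n x) n) 0 with h0 | h0
            · rw [h0]
              simp
            · have := wt_lt hW (D := fun n => E.D n x) (hD x) n h0
              refine mul_le_mul_of_nonneg_left ((h2 n).trans ?_) hw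
              linarith
        _ = s₀ * Real.exp Λ + 2 * (κ * s₀) := by
            rw [← Finset.sum_mul, hs1, one_mul]
    refine h3.trans_lt ?_
    have : 2 * (κ * s₀) ≤ s₀ := by nlinarith
    nlinarith

end Pool.Agent.Helper8.SE
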