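import Pool.Agent.Helper96.SE.Stmts

/-! # Module SIZ: the number of vertices -/

set_option autoImplicit false

namespace Pool.Agent.Helper96.SE

open Pool.Agent.Helper52.Grid

theorem siz_hR (r t : ℕ) (h : hR r t = 0) : t ≤ 1 := by
  unfold hR at h
  split at h <;> omega

theorem siz_vR (i r t : ℕ) (h : vR i r t = 0) : t ≤ 2 := by
  unfold vR at h
  split at h <;> omega

theorem siz_h (s : List Sub) (M : ℕ) (T : ℕ → Bool) (x y : ℕ) (h : hN s M T x y = 0) :
    x + 1 < 24 + 4 * s.length ∧ 1 ≤ y ∧ y < 11 + 12 * M := by
  by_cases hx : x < 5 + 4 * s.length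
  · rw [hN_old hx] at h
    refine ⟨by omega, ?_, ?_⟩
    · by_contra hy
      have hy0 : y = 0 := by omega
      rw [hy0] at h
      unfold hC hT at h
      split_ifs at h <;> first | omega | simp_all
    · unfold hC at h
      split_ifs at h <;> omega
  · unfold hN at h
    rw [if_neg hx] at h
    split_ifs at h with h1 h2 h3
    · omega
    · unfold hE at h
      split_ifs at h with h4 h5 h6
      · omega
      · omega
      · omega
      · have := siz_hR _ _ h
        omega

theorem siz_v (s : List Sub) (M : ℕ) (T : ℕ → Bool) (x y : ℕ) (h : vN s M T x y = 0) :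
    x < 24 + 4 * s.length ∧ 1 ≤ y ∧ y + 1 < 11 + 12 * M := by
  by_cases hx : x < 5 + 4 * s.length
  · rw [vN_old hx] at h
    refine ⟨by omega, ?_, ?_⟩
    · by_contra hy
      have hy0 : y = 0 := by omega
      rw [hy0] at h
      unfold vC vT at h
      split_ifs at h <;> first | omega | simp_all
    · unfold vC at h
      split_ifs at h <;> omega
  · unfold vN at h
    rw [if_neg hx] at h
    split_ifs at h with h1 h2 h3
    · omega
    · unfold vE at h
      split_ifs at h with h4 h5 h6
      · omega
      · omega
      · omega
      · have := siz_vR _ _ _ h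
        omega

theorem siz_top0 (S : List Sub) (M x : ℕ) (h1 : 1 ≤ x) (h2 : x < 5 + 4 * S.length) :
    hC S M x 3 = 0 ∨ hC S M (x - 1) 3 = 0 := by
  by_cases h5 : x < 5
  · left
    unfold hC hT
    rw [if_pos (by norm_num), if_pos h5, if_pos ⟨rfl, h1⟩]
  · have h6 : x < 5 + 4 * S.length := by omega
    by_cases h7 : (x - 5) % 4 = 1 ∧ dock (sg S ((x - 5) / 4)) = true
    · right
      unfold hC hT
      rw [if_pos (by norm_num)]
      by_cases h8 : x - 1 < 5
      · rw [if_pos h8, if_pos ⟨rfl, by omega⟩]
      · rw [if_neg h8, if_pos (by omega), if_pos rfl, if_neg]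
        intro h9
        have := h9.1
        have := h7.1
        omega
    · left
      unfold hC hT
      rw [if_pos (by norm_num), if_neg h5, if_pos h6, if_pos rfl, if_neg h7]

theorem siz_top (s : List Sub) (M : ℕ) (T : ℕ → Bool) (x : ℕ) (h1 : 1 ≤ x)
    (h2 : x ≤ 23 + 4 * s.length) : Vert (hN s M T) (vN s M T) (x, 3) := by
  unfold Vert
  by_cases hx : x < 5 + 4 * s.length
  · rcases siz_top0 s M x h1 hx with h | h
    · left
      change hN s M T x 3 = 0
      rw [hN_old hx, h]
    · right; left
      change hN s M T (x - 1) 3 = 0
      rw [hN_old (by omega), h]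
  · by_cases hx' : x < 23 + 4 * s.length
    · left
      change hN s M T x 3 = 0
      rw [hN_top (by omega) (by norm_num), if_pos ⟨rfl, hx'⟩]
    · right; left
      change hN s M T (x - 1) 3 = 0
      rw [hN_top (by omega) (by norm_num), if_pos ⟨rfl, by omega⟩]

theorem siz_left (s : List Sub) (M : ℕ) (T : ℕ → Bool) (y : ℕ) (h1 : 4 ≤ y)
    (h2 : y < 4 + 12 * M) : Vert (hN s M T) (vN s M T) (1, y) := by
  unfold Vert
  right; right; left
  change vN s M T 1 y = 0
  rw [vN_old (by omega)]
  unfold vC vL
  rw [if_neg (by omega), if_pos (by omega), if_pos (by norm_num)]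
  simp only
  rw [if_pos]
  left
  omega

/-- the module statement -/
theorem st_SIZ : ST_SIZ := by
  intro s M T L hL hmem
  have hcard : L.length = L.toFinset.card := (List.toFinset_card_of_nodup hL).symm
  constructor
  · have hsub : L.toFinset ⊆
        Finset.range (24 + 4 * s.length) ×ˢ Finset.Ico 1 (11 + 12 * M) := by
      intro a ha
      rw [List.mem_toFinset, hmem] at ha
      rw [Finset.mem_product, Finset.mem_range, Finset.mem_Ico]
      rcases ha with h | h | h | h
      · have := siz_h s M T _ _ h
        omega
      · have := siz_h s M T _ _ h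
        omega
      · have := siz_v s M T _ _ h
        omega
      · have := siz_v s M T _ _ h
        omega
    have h := Finset.card_le_card hsub
    rw [Finset.card_product, Finset.card_range, Nat.card_Ico] at h
    rw [hcard]
    have e : 11 + 12 * M - 1 = 10 + 12 * M := by omega
    rw [e] at h
    exact h
  · have hA : ((Finset.range (4 * s.length + 23)).image (fun x => ((x + 1, 3) : Pt))).card =
        4 * s.length + 23 := by
      rw [Finset.card_image_of_injective, Finset.card_range]
      intro x y hxy
      have h3 := congrArg Prod.fst hxy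
      simp only at h3
      omega
    have hB : ((Finset.range (12 * M)).image (fun y => ((1, y + 4) : Pt))).card = 12 * M := by
      rw [Finset.card_image_of_injective, Finset.card_range]
      intro x y hxy
      have h3 := congrArg Prod.snd hxy
      simp only at h3
      omega
    have hdis : Disjoint ((Finset.range (4 * s.length + 23)).image (fun x => ((x + 1, 3) : Pt)))
        ((Finset.range (12 * M)).image (fun y => ((1, y + 4) : Pt))) := by
      rw [Finset.disjoint_left]
      intro a ha hb
      rw [Finset.mem_image] at ha hb
      obtain ⟨x, _, rfl⟩ := ha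
      obtain ⟨y, _, hy⟩ := hb
      have h3 := congrArg Prod.snd hy
      simp only at h3
      omega
    have hsub : ((Finset.range (4 * s.length + 23)).image (fun x => ((x + 1, 3) : Pt))) ∪
        ((Finset.range (12 * M)).image (fun y => ((1, y + 4) : Pt))) ⊆ L.toFinset := by
      intro a ha
      rw [List.mem_toFinset, hmem]
      rcases Finset.mem_union.1 ha with h | h
      · rw [Finset.mem_image] at h
        obtain ⟨x, hx, rfl⟩ := h
        rw [Finset.mem_range] at hx
        exact siz_top s M T (x + 1) (by omega) (by omega)
      · rw [Finset.mem_image] at h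
        obtain ⟨y, hy, rfl⟩ := h
        rw [Finset.mem_range] at hy
        exact siz_left s M T (y + 4) (by omega) (by omega)
    have h := Finset.card_le_card hsub
    rw [Finset.card_union_of_disjoint hdis, hA, hB, ← hcard] at h
    omega

end Pool.Agent.Helper96.SE
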