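import Mathlib

/-! Sheet SE (MP_3a8adc_an): separable spaces, constant two. -/

open scoped ContDiff
open Set Filter Topology

namespace Pool.Agent.Helper8.SE

/-- The norm is a uniform limit of `C^k` functions which are `c`-Lipschitz. -/
def NormApp (k : WithTop ℕ∞) (X : Type*) [NormedAddCommGroup X] [NormedSpace ℝ X] (c : ℝ) : Prop :=
  ∀ δ : ℝ, 0 < δ → ∃ ν : X → ℝ, ContDiff ℝ k ν ∧ (∀ x y, |ν x - ν y| ≤ c * ‖x - y‖) ∧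
    ∀ x, |ν x - ‖x‖| ≤ δ

/-- Row SMIN: a smooth minimum. Average `min (a + t) (b + s) - η / 2` over the noise of size
`η / 2` (`Pool.Agent.Helper94.CZ.contDiff_average`, `pi_law_ae`, with `Fin 2`). -/
def ST_SMIN : Prop := ∀ η : ℝ, 0 < η → ∃ m : ℝ → ℝ → ℝ,
  ContDiff ℝ ∞ (fun p : ℝ × ℝ => m p.1 p.2) ∧
  (∀ a b a' b' t : ℝ, |a - a'| ≤ t → |b - b'| ≤ t → |m a b - m a' b'| ≤ t) ∧
  (∀ a b, min a b - η ≤ m a b) ∧ ∀ a b, m a b ≤ min a b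

/-- Row STEPF: a smooth step of slope at most `1 + κ`. Average `clip ((u - ρ) / (1 - 2 ρ))` to
`[0, 1]` over the noise of size `ρ`, with `1 / (1 - 2 ρ) ≤ 1 + κ`. -/
def ST_STEPF : Prop := ∀ κ : ℝ, 0 < κ → ∃ S : ℝ → ℝ, ContDiff ℝ ∞ S ∧ Monotone S ∧
  (∀ u, 0 ≤ S u) ∧ (∀ u, S u ≤ 1) ∧ (∀ u ≤ 0, S u = 0) ∧ (∀ u, 1 ≤ u → S u = 1) ∧
  ∀ u v, |S u - S v| ≤ (1 + κ) * |u - v|

/-- The logarithmic weight. -/
structure LogW (κ s₀ Λ : ℝ) (W : ℝ → ℝ) : Prop where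
  smooth : ContDiff ℝ ∞ W
  mono : Monotone W
  nonneg : ∀ t, 0 ≤ W t
  le_one : ∀ t, W t ≤ 1
  zero : ∀ t ≤ s₀, W t = 0
  one : ∀ t, s₀ * Real.exp Λ ≤ t → W t = 1
  lip : ∀ s t, 0 < s → s ≤ t → W t - W s ≤ (1 + κ) / Λ * ((t - s) / s)

/-- Row LOGW (dep `ST_STEPF`): `W t = S (log (t / s₀) / Λ)` for `t > 0`, `W t = 0` for `t ≤ 0`. -/
def ST_LOGW : Prop := ∀ κ s₀ Λ : ℝ, 0 < κ → 0 < s₀ → 0 < Λ → ∃ W : ℝ → ℝ, LogW κ s₀ Λ W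

/-- Row ABEL: by induction on `q` (`1 - t ≤ - log t`). -/
def ST_ABEL : Prop := ∀ (a l : ℕ → ℝ) (A : ℝ) (q : ℕ), 0 ≤ A → (∀ n ≤ q, 0 < a n) →
  (∀ n < q, a (n + 1) ≤ a n) → (∀ n ≤ q, l n ≤ A * a n) →
  ∑ n ∈ Finset.range (q + 1), (l n - l (n + 1)) / a n + l (q + 1) / a q ≤
    A * (1 + Real.log (a 0 / a q))

/-- The glued value. -/
noncomputable def Kf (W : ℝ → ℝ) (D F : ℕ → ℝ) (N : ℕ) : ℝ :=
  ∑ n ∈ Finset.range (N + 1), ((if n = 0 then 1 else W (D (n - 1))) - W (D n)) * F n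

/-- Row LIP (dep `ST_ABEL`). `D, U, V` are the values at `y`, `D', U', V'` those at `x`. Proof:
`F = (U + V) / 2`, `K' - K = ∑ w'_n (F'_n - F_n) + ∑ g_n (F_{n+1} - F_n)` with
`g_n = W (D'_n) - W (D_n)`, `g_N = 0`, `|F_{n+1} - F_n| ≤ (l_n - l_{n+1}) / 2`, `l = U - V`.
If `g_n ≠ 0` then `(1 - κ) s₀ < D_n < (1 + κ) s₀ e^Λ` and
`|g_n| ≤ (1 + κ) / Λ * τ / ((1 - 2 κ) D_n)`; these `n` lie in an interval `[p, q]`, where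
`l_n ≤ 2 (1 + 2 κ) D_n` and `l_{q+1} ≥ - 2 e ≥ - 4 κ D_q`; `ST_ABEL` gives
`∑_{p..q} (l_n - l_{n+1}) / D_n ≤ 2 (1 + 2 κ) (Λ + 2)`. -/
def ST_LIP : Prop := ∀ (κ s₀ Λ e τ : ℝ) (W : ℝ → ℝ) (D D' U U' V V' : ℕ → ℝ) (N : ℕ),
  0 < κ → κ ≤ 1 / 10 → 0 < s₀ → 0 < Λ → 0 ≤ e → e ≤ κ * s₀ → 0 ≤ τ → τ ≤ κ * s₀ →
  LogW κ s₀ Λ W → (∀ n, |D n - D' n| ≤ τ) → (∀ n, |U n - U' n| ≤ τ) → (∀ n, |V n - V' n| ≤ τ) →
  (∀ n, D (n + 1) ≤ D n) → (∀ n, D' (n + 1) ≤ D' n) → (∀ n, U (n + 1) ≤ U n) →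
  (∀ n, V n ≤ V (n + 1)) → (∀ n, U n - V n ≤ 2 * (D n + e)) → (∀ n, - (2 * e) ≤ U n - V n) →
  W (D N) = 0 → W (D' N) = 0 →
  |Kf W D' (fun n => (U' n + V' n) / 2) N - Kf W D (fun n => (U n + V n) / 2) N| ≤
    τ * (1 + (1 + κ) * (1 + 2 * κ) / (1 - 2 * κ) * (1 + 2 / Λ))

/-- Smooth envelopes of `f` along the points `z`. -/
structure Env (k : WithTop ℕ∞) {X : Type*} [NormedAddCommGroup X] [NormedSpace ℝ X] (f : X → ℝ)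
    (z : ℕ → X) (c e : ℝ) where
  D : ℕ → X → ℝ
  U : ℕ → X → ℝ
  V : ℕ → X → ℝ
  Dc : ∀ n, ContDiff ℝ k (D n)
  Uc : ∀ n, ContDiff ℝ k (U n)
  Vc : ∀ n, ContDiff ℝ k (V n)
  Dl : ∀ n x y, |D n x - D n y| ≤ c * ‖x - y‖
  Ul : ∀ n x y, |U n x - U n y| ≤ c * ‖x - y‖
  Vl : ∀ n x y, |V n x - V n y| ≤ c * ‖x - y‖
  Dm : ∀ n x, D (n + 1) x ≤ D n x
  Um : ∀ n x, U (n + 1) x ≤ U n x
  Vm : ∀ n x, V n x ≤ V (n + 1) x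
  fU : ∀ n x, f x - e ≤ U n x
  Vf : ∀ n x, V n x ≤ f x + e
  UV : ∀ n x, U n x - V n x ≤ 2 * (D n x + e)
  Dz : ∀ n x, ∀ j ≤ n, D n x ≤ ‖x - z j‖ + e

/-- Row ENV (dep `ST_SMIN`): `ν_n` from `NormApp` with error `η_n = e / 2^(n+3)`, `m_n` from
`ST_SMIN` with `η_n`. `D 0 x = ν_0 (x - z_0)`, `D (n+1) x = m_(n+1) (D n x) (ν_(n+1) (x - z_(n+1)))`;
`U 0 x = f z_0 + ν_0 (x - z_0)`, `U (n+1) x = m_(n+1) (U n x) (f z_(n+1) + ν_(n+1) (x - z_(n+1)))`;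
`V = - U` for `- f` (same `ν`, `m`). Some `j ≤ n` has `ν_j (x - z_j) ≤ D n x + e`, and
`U n x ≤ f z_j + ν_j (x - z_j)`, `V n x ≥ f z_j - ν_j (x - z_j)`. -/
def ST_ENV.{u} : Prop := ∀ (X : Type u) [NormedAddCommGroup X] [NormedSpace ℝ X]
  (k : WithTop ℕ∞) (c : ℝ), k ≤ ∞ → NormApp k X c → ∀ (f : X → ℝ),
  (∀ x y, |f x - f y| ≤ ‖x - y‖) → ∀ (z : ℕ → X) (e : ℝ), 0 < e → Nonempty (Env k f z c e)

/-- Row GLUE (deps `ST_LOGW`, `ST_LIP`; helper8). -/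
def ST_GLUE.{u} : Prop := ∀ (X : Type u) [NormedAddCommGroup X] [NormedSpace ℝ X]
  (k : WithTop ℕ∞) (c : ℝ), k ≤ ∞ → 0 < c → ∀ (f : X → ℝ) (z : ℕ → X), DenseRange z →
  (∀ e : ℝ, 0 < e → Nonempty (Env k f z c e)) → ∀ (C : ℝ), 2 * c < C → ∀ ε : ℝ, 0 < ε →
  ∃ K : X → ℝ, ContDiff ℝ k K ∧ (∀ x y, |K x - K y| ≤ C * ‖x - y‖) ∧ ∀ x, |f x - K x| < ε

/-- The size of `f` on the unit ball of the common kernel of `g_0, …, g_j`. -/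
noncomputable def pj {X : Type*} [NormedAddCommGroup X] [NormedSpace ℝ X]
    (g : ℕ → StrongDual ℝ X) (j : ℕ) (f : StrongDual ℝ X) : ℝ :=
  sSup {r | ∃ x : X, ‖x‖ ≤ 1 ∧ (∀ i ≤ j, g i x = 0) ∧ r = f x}

/-- Row HB: `pj` is the distance to the span of `g_0, …, g_j`. Extend the restriction of `f` to
the common kernel with the same norm (`Real.exists_extension_norm_eq`), the difference is in the
span by `mem_span_of_iInf_ker_le_ker`. -/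
def ST_HB.{u} : Prop := ∀ (X : Type u) [NormedAddCommGroup X] [NormedSpace ℝ X]
  (g : ℕ → StrongDual ℝ X) (j : ℕ) (f : StrongDual ℝ X),
  ∃ h ∈ Submodule.span ℝ (g '' Set.Iic j), ‖f - h‖ ≤ pj g j f

/-- Row ULT: weak-star limits along an ultrafilter. -/
def ST_ULT.{u} : Prop := ∀ (X : Type u) [NormedAddCommGroup X] [NormedSpace ℝ X]
  (u : ℕ → StrongDual ℝ X), (∀ n, ‖u n‖ ≤ 1) → ∀ F : Ultrafilter ℕ,
  ∃ f : StrongDual ℝ X, ‖f‖ ≤ 1 ∧ ∀ x, Tendsto (fun n => u n x) F (𝓝 (f x))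

/-- The penalty. -/
noncomputable def phi {X : Type*} [NormedAddCommGroup X] [NormedSpace ℝ X] (δ : ℝ)
    (g : ℕ → StrongDual ℝ X) (x : ℕ → X) (f : StrongDual ℝ X) : ℝ :=
  δ * ∑' j : ℕ, (1 / 2 : ℝ) ^ (j + 2) * ((f (x j)) ^ 2 + (pj g j f) ^ 2)

/-- Row PHM (dep `ST_ULT`): the maximum is attained. Take `u_n` with value tending to the supremum
and the limit `f₀` of `ST_ULT` along the hyperfilter; `f x_j` passes to the limit and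
`pj f₀ ≤ lim pj (u_n)` (partial sums of the series, `tsum` of nonnegative terms). -/
def ST_PHM.{u} : Prop := ∀ (X : Type u) [NormedAddCommGroup X] [NormedSpace ℝ X] (δ : ℝ),
  0 < δ → ∀ (g : ℕ → StrongDual ℝ X) (x : ℕ → X), (∀ j, ‖x j‖ ≤ 1) →
  (∀ f, 0 ≤ phi δ g x f) ∧ (∀ f, ‖f‖ ≤ 1 → phi δ g x f ≤ δ) ∧
  ∀ y : X, ∃ f₀ : StrongDual ℝ X, ‖f₀‖ ≤ 1 ∧
    ∀ f, ‖f‖ ≤ 1 → f y - phi δ g x f ≤ f₀ y - phi δ g x f₀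

/-- Row PHC: along a maximizing sequence `u_n x_j → f₀ x_j` and `pj (u_n) → pj f₀`: by
convexity (value at `(u_n + f₀) / 2`) the terms
`δ (1/2)^(j+2) ((u_n x_j - f₀ x_j)^2 + (pj u_n - pj f₀)^2) / 4` are at most
`(G f₀ - G u_n) / 2`, `G f = f y - φ f`. -/
def ST_PHC.{u} : Prop := ∀ (X : Type u) [NormedAddCommGroup X] [NormedSpace ℝ X] (δ : ℝ),
  0 < δ → ∀ (g : ℕ → StrongDual ℝ X) (x : ℕ → X), (∀ j, ‖x j‖ ≤ 1) →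
  ∀ (y : X) (f₀ : StrongDual ℝ X), ‖f₀‖ ≤ 1 →
  (∀ f, ‖f‖ ≤ 1 → f y - phi δ g x f ≤ f₀ y - phi δ g x f₀) → ∀ u : StrongDual ℝ X, ‖u‖ ≤ 1 →
  ∀ j, δ * (1 / 2 : ℝ) ^ (j + 2) * ((u (x j) - f₀ (x j)) ^ 2 + (pj g j u - pj g j f₀) ^ 2) ≤
    2 * ((f₀ y - phi δ g x f₀) - (u y - phi δ g x u))

/-- Row KK (deps `ST_HB`, `ST_ULT`): `u_n x_j → f₀ x_j` and `pj g j u_n → pj g j f₀` for all `j`
imply `u_n → f₀` in norm. Choose `j` with `pj g j f₀ < ε / 8` (some `g i` is `ε / 8`-near `f₀`,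
and `pj g j f ≤ ‖f - g i‖` for `i ≤ j`); by `ST_HB` there are `h_n` in the
(finite-dimensional) span with `‖u_n - h_n‖ < ε / 4`; along an ultrafilter (concentrated on the
`n` with `‖u_n - f₀‖ ≥ ε`) `h_n → h` in norm, `u_n → f₀` weak-star, so `‖f₀ - h‖ ≤ ε / 4` and
`lim ‖u_n - f₀‖ ≤ ε / 2`. -/
def ST_KK.{u} : Prop := ∀ (X : Type u) [NormedAddCommGroup X] [NormedSpace ℝ X]
  (g : ℕ → StrongDual ℝ X) (x : ℕ → X), DenseRange g → (∀ j, ‖x j‖ ≤ 1) →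
  (∀ y : X, ‖y‖ ≤ 1 → ∀ ε : ℝ, 0 < ε → ∃ j, ‖y - x j‖ < ε) →
  ∀ (f₀ : StrongDual ℝ X) (u : ℕ → StrongDual ℝ X), ‖f₀‖ ≤ 1 → (∀ n, ‖u n‖ ≤ 1) →
  (∀ j, Tendsto (fun n => u n (x j)) atTop (𝓝 (f₀ (x j)))) →
  (∀ j, Tendsto (fun n => pj g j (u n)) atTop (𝓝 (pj g j f₀))) →
  Tendsto u atTop (𝓝 f₀)

/-- Row PHI (deps `ST_PHM`, `ST_PHC`, `ST_KK`): for a separable dual (so `X` is separable:
`Pool.Agent`-free proof: norming sequence, or any lemma of Mathlib) take `g` dense in `X*` and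
`x_j` dense in the unit ball of `X`, and `φ = phi δ g x`. Strong maximum: otherwise there are
`u_n` with value tending to the maximum and `‖u_n - f₀‖ > ε`; `ST_PHC` and `ST_KK`. -/
def ST_PHI.{u} : Prop := ∀ (X : Type u) [NormedAddCommGroup X] [NormedSpace ℝ X]
  [TopologicalSpace.SeparableSpace X] [TopologicalSpace.SeparableSpace (StrongDual ℝ X)] (δ : ℝ),
  0 < δ → ∃ φ : StrongDual ℝ X → ℝ,
  (∀ f, 0 ≤ φ f) ∧ (∀ f, ‖f‖ ≤ 1 → φ f ≤ δ) ∧ ∀ x : X, ∃ f₀ : StrongDual ℝ X, ‖f₀‖ ≤ 1 ∧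
    (∀ f, ‖f‖ ≤ 1 → f x - φ f ≤ f₀ x - φ f₀) ∧ ∀ ε : ℝ, 0 < ε → ∃ η : ℝ, 0 < η ∧
      ∀ f, ‖f‖ ≤ 1 → f₀ x - φ f₀ - η ≤ f x - φ f → ‖f - f₀‖ ≤ ε

/-- Row SEP: a normed space with separable dual is separable (for a dense sequence `g_n` of the
dual choose `‖x_n‖ ≤ 1` with `g_n x_n ≥ ‖g_n‖ / 2`; the closed span is everything by
`Real.exists_extension_norm_eq` or geometric Hahn-Banach). -/
def ST_SEP.{u} : Prop := ∀ (X : Type u) [NormedAddCommGroup X] [NormedSpace ℝ X]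
  [TopologicalSpace.SeparableSpace (StrongDual ℝ X)], TopologicalSpace.SeparableSpace X

/-- Row NU (dep `ST_PHI`): `ν x = f₀ x - φ f₀` is `1`-Lipschitz, within `δ` of the norm, has
derivative `f₀` at `x`, and `x ↦ f₀` is continuous (for `x'` near `x`, `f₀(x')` almost maximizes
at `x`): `0 ≤ ν (x + h) - ν x - f₀ h ≤ (f₀(x+h) - f₀(x)) h`. -/
def ST_NU.{u} : Prop := ∀ (X : Type u) [NormedAddCommGroup X] [NormedSpace ℝ X]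
  [TopologicalSpace.SeparableSpace X] [TopologicalSpace.SeparableSpace (StrongDual ℝ X)],
  NormApp 1 X 1

end Pool.Agent.Helper8.SE
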